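import Mathlib
import Pool.Agent.Q137.GridDist.Construct

set_option autoImplicit false

/-!
# Distinct-distance subsets of the `d`-dimensional grid

For every `s ≥ 1` and every `d ≥ 16 s² + 8 s` the largest distinct-distance subset of the grid
`{1, …, n}^d` has at least `n^{s/(s+1)} / (4 · 6^{s+1})` points.  In particular the conjectured
bound `k_d(n) < c d^{2/3} n^{2/3} (log n)^{1/3}` is false.
-/

namespace Pool.Agent.Results.MP_ae055e_co.LargeDimension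

open Filter

/-- The Euclidean distance of two lattice points. -/
noncomputable def euclid {d : ℕ} (x y : Fin d → ℤ) : ℝ :=
  dist (WithLp.toLp 2 (fun i => (x i : ℝ)) : EuclideanSpace ℝ (Fin d))
    (WithLp.toLp 2 (fun i => (y i : ℝ)))

/-- The distances over all unordered pairs of different points of `S` are pairwise different. -/
def DistinctDistances {d : ℕ} (S : Finset (Fin d → ℤ)) : Prop :=
  ∀ x ∈ S, ∀ y ∈ S, ∀ z ∈ S, ∀ w ∈ S, x ≠ y → z ≠ w → euclid x y = euclid z w →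
    (x = z ∧ y = w) ∨ (x = w ∧ y = z)

/-- `k_d(n)`: the largest size of a set `S` of points of the cube `{1, …, n}^d` with distinct
distances. -/
noncomputable def k (d n : ℕ) : ℕ :=
  sSup {m : ℕ | ∃ S : Finset (Fin d → ℤ), (∀ x ∈ S, ∀ i, 1 ≤ x i ∧ x i ≤ n) ∧
    DistinctDistances S ∧ S.card = m}

theorem euclid_eq {d : ℕ} (x y : Fin d → ℤ) :
    euclid x y = Real.sqrt ((Q137.GridDist.sqd x y : ℤ) : ℝ) := by
  unfold euclid Q137.GridDist.sqd
  rw [EuclideanSpace.dist_eq]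
  congr 1
  push_cast
  apply Finset.sum_congr rfl
  intro i _
  rw [Real.dist_eq, sq_abs]

theorem sqd_eq_of_euclid_eq {d : ℕ} {x y z w : Fin d → ℤ} (h : euclid x y = euclid z w) :
    Q137.GridDist.sqd x y = Q137.GridDist.sqd z w := by
  rw [euclid_eq, euclid_eq, Real.sqrt_inj] at h
  · exact_mod_cast h
  · have : 0 ≤ Q137.GridDist.sqd x y := Finset.sum_nonneg fun i _ => sq_nonneg _
    exact_mod_cast this
  · have : 0 ≤ Q137.GridDist.sqd z w := Finset.sum_nonneg fun i _ => sq_nonneg _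
    exact_mod_cast this

theorem le_k {d n : ℕ} (S : Finset (Fin d → ℤ)) (h1 : ∀ x ∈ S, ∀ i, 1 ≤ x i ∧ x i ≤ n)
    (h2 : DistinctDistances S) : S.card ≤ k d n := by
  refine le_csSup ?_ ⟨S, h1, h2, rfl⟩
  refine ⟨(Fintype.piFinset fun _ : Fin d => Finset.Icc (1:ℤ) n).card, ?_⟩
  rintro m ⟨T, hT, -, rfl⟩
  apply Finset.card_le_card
  intro x hx
  rw [Fintype.mem_piFinset]
  intro i
  rw [Finset.mem_Icc]
  exact hT x hx i

theorem k_mono {d n m : ℕ} (h : n ≤ m) : k d n ≤ k d m := by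
  have hne : {m : ℕ | ∃ S : Finset (Fin d → ℤ), (∀ x ∈ S, ∀ i, 1 ≤ x i ∧ x i ≤ n) ∧
    DistinctDistances S ∧ S.card = m}.Nonempty :=
    ⟨0, ∅, by simp, by intro x hx; simp at hx, by simp⟩
  apply csSup_le hne
  rintro _ ⟨S, h1, h2, rfl⟩
  exact le_k S (fun x hx i => ⟨(h1 x hx i).1, (h1 x hx i).2.trans (by exact_mod_cast h)⟩) h2

theorem one_le_k {d n : ℕ} (hn : 1 ≤ n) : 1 ≤ k d n := by
  have := le_k (d := d) (n := n) {fun _ => 1} (by
    intro x hx i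
    rw [Finset.mem_singleton] at hx
    subst hx
    refine ⟨le_refl _, ?_⟩
    show (1:ℤ) ≤ n
    exact_mod_cast hn) (by
    intro x hx y hy
    rw [Finset.mem_singleton] at hx hy
    subst hx; subst hy
    intro z _ w _ hne
    exact absurd rfl hne)
  simpa using this

theorem lt_three_mul_k {B s d : ℕ} (hB : 6 ≤ B) (hs : 1 ≤ s) (hd : 16 * s ^ 2 + 8 * s ≤ d) :
    B ^ s < 3 * k d (4 * B ^ (s + 1)) := by
  obtain ⟨p, P, h1, h2, h3⟩ := Q137.GridDist.exists_points hB hs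
    (show 4 * ((2 * s) ^ 2 + 2 * s) ≤ d by nlinarith)
  have hp3 : 3 ≤ p := by
    have : 6 ≤ B ^ s := le_trans hB (Nat.le_self_pow (by omega) B)
    omega
  have hinj : ∀ a b, a < p → b < p → P a = P b → a = b := by
    intro a b ha hb hab
    by_contra hne
    -- compare the pair `{a, b}` with `{a, c}` and `{c, e}`
    have h4 : Q137.GridDist.sqd (P a) (P b) = 0 := by
      unfold Q137.GridDist.sqd
      rw [hab]; simp
    -- pick another index
    obtain ⟨c, hc, hca, hcb⟩ : ∃ c, c < p ∧ c ≠ a ∧ c ≠ b := by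
      by_contra hcon
      push Not at hcon
      have h5 := hcon 0 (by omega)
      have h6 := hcon 1 (by omega)
      have h7 := hcon 2 (by omega)
      omega
    have h5 : Q137.GridDist.sqd (P a) (P b) = Q137.GridDist.sqd (P c) (P c) := by
      rw [h4]
      unfold Q137.GridDist.sqd
      simp
    rcases h3 a b c c ha hb hc hc hne h5 with h6 | h6 <;> omega
  classical
  have hcard : ((Finset.range p).image P).card = p := by
    rw [Finset.card_image_of_injOn, Finset.card_range]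
    intro a ha b hb hab
    rw [Finset.mem_coe, Finset.mem_range] at ha hb
    exact hinj a b ha hb hab
  have hle := le_k (n := 4 * B ^ (s + 1)) ((Finset.range p).image P) (by
    intro x hx i
    rw [Finset.mem_image] at hx
    obtain ⟨a, -, rfl⟩ := hx
    exact h2 a i) (by
    intro x hx y hy z hz w hw hxy hzw hdist
    rw [Finset.mem_image] at hx hy hz hw
    obtain ⟨a, ha, rfl⟩ := hx
    obtain ⟨b, hb, rfl⟩ := hy
    obtain ⟨c, hc, rfl⟩ := hz
    obtain ⟨e, he, rfl⟩ := hw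
    rw [Finset.mem_range] at ha hb hc he
    have hab : a ≠ b := fun h => hxy (by rw [h])
    rcases h3 a b c e ha hb hc he hab (sqd_eq_of_euclid_eq hdist) with ⟨rfl, rfl⟩ | ⟨rfl, rfl⟩
    · left; exact ⟨rfl, rfl⟩
    · right; exact ⟨rfl, rfl⟩)
  rw [hcard] at hle
  omega

theorem k_lower {s d : ℕ} (hs : 1 ≤ s) (hd : 16 * s ^ 2 + 8 * s ≤ d) {n : ℕ} (hn : 1 ≤ n) :
    (n : ℝ) ^ ((s : ℝ) / ((s : ℝ) + 1)) / (4 * 6 ^ (s + 1)) ≤ (k d n : ℝ) := by
  have hn1 : (1:ℝ) ≤ n := by exact_mod_cast hn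
  have hs1 : (0:ℝ) < (s:ℝ) + 1 := by positivity
  rcases lt_or_ge n (4 * 6 ^ (s + 1)) with hlt | hge
  · have h1 : (1:ℝ) ≤ k d n := by exact_mod_cast one_le_k hn
    refine le_trans ?_ h1
    rw [div_le_one (by positivity)]
    have h2 : (n : ℝ) ^ ((s : ℝ) / ((s : ℝ) + 1)) ≤ (n:ℝ) ^ (1:ℝ) := by
      apply Real.rpow_le_rpow_of_exponent_le hn1
      rw [div_le_one hs1]
      linarith
    rw [Real.rpow_one] at h2
    have h3 : (n : ℝ) ≤ 4 * 6 ^ (s + 1) := by exact_mod_cast hlt.le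
    linarith
  · set y : ℝ := ((n:ℝ) / 4) ^ (1 / ((s:ℝ) + 1)) with hy
    have hn4 : (0:ℝ) ≤ (n:ℝ) / 4 := by positivity
    have hypow : y ^ (s + 1) = (n:ℝ) / 4 := by
      rw [hy, ← Real.rpow_natCast, ← Real.rpow_mul hn4]
      push_cast
      rw [one_div_mul_cancel hs1.ne', Real.rpow_one]
    have hy0 : 0 ≤ y := by positivity
    have hy6 : 6 ≤ y := by
      have h4 : (6:ℝ) ^ (s + 1) ≤ y ^ (s + 1) := by
        rw [hypow, le_div_iff₀ (by norm_num)]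
        have : ((4 * 6 ^ (s + 1) : ℕ) : ℝ) ≤ n := by exact_mod_cast hge
        push_cast at this
        linarith
      exact le_of_pow_le_pow_left₀ (by omega) hy0 h4
    set B := ⌊y⌋₊ with hB
    have hB6 : 6 ≤ B := Nat.le_floor (by exact_mod_cast hy6)
    have hBy : (B:ℝ) ≤ y := Nat.floor_le hy0
    have hyB : y < B + 1 := Nat.lt_floor_add_one y
    have hB1 : (6:ℝ) ≤ B := by exact_mod_cast hB6
    have h4 : 4 * B ^ (s + 1) ≤ n := by
      have h5 : (B:ℝ) ^ (s + 1) ≤ y ^ (s + 1) := pow_le_pow_left₀ (by positivity) hBy _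
      rw [hypow] at h5
      have h6 : (4:ℝ) * (B:ℝ) ^ (s + 1) ≤ n := by linarith
      exact_mod_cast h6
    have h7 := lt_three_mul_k hB6 hs hd
    have h8 : B ^ s ≤ 3 * k d n := h7.le.trans (Nat.mul_le_mul_left 3 (k_mono h4))
    have h9 : (B:ℝ) ^ s ≤ 3 * (k d n : ℝ) := by exact_mod_cast h8
    have h10 : (y / 2) ^ s ≤ (B:ℝ) ^ s := by
      apply pow_le_pow_left₀ (by positivity)
      linarith
    have h11 : (n : ℝ) ^ ((s : ℝ) / ((s : ℝ) + 1)) ≤ 4 * y ^ s := by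
      have h12 : y ^ s = ((n:ℝ) / 4) ^ ((s : ℝ) / ((s : ℝ) + 1)) := by
        rw [hy, ← Real.rpow_natCast, ← Real.rpow_mul hn4]
        congr 1
        ring
      rw [h12, Real.div_rpow (by positivity) (by norm_num)]
      have h13 : (4:ℝ) ^ ((s : ℝ) / ((s : ℝ) + 1)) ≤ 4 := by
        have : (4:ℝ) ^ ((s : ℝ) / ((s : ℝ) + 1)) ≤ 4 ^ (1:ℝ) := by
          apply Real.rpow_le_rpow_of_exponent_le (by norm_num)
          rw [div_le_one hs1]
          linarith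
        simpa using this
      have h14 : (0:ℝ) < 4 ^ ((s : ℝ) / ((s : ℝ) + 1)) := by positivity
      rw [mul_div_assoc', le_div_iff₀ h14]
      have h15 : (0:ℝ) ≤ (n : ℝ) ^ ((s : ℝ) / ((s : ℝ) + 1)) := by positivity
      nlinarith
    have h16 : (y / 2) ^ s = y ^ s / 2 ^ s := by rw [div_pow]
    rw [h16] at h10
    have h17 : (2:ℝ) ^ s ≤ 6 ^ s := pow_le_pow_left₀ (by norm_num) (by norm_num) s
    have h18 : y ^ s ≤ 3 * (k d n : ℝ) * 2 ^ s := by
      have := h10.trans h9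
      rwa [div_le_iff₀ (by positivity)] at this
    rw [div_le_iff₀ (by positivity)]
    have h19 : (0:ℝ) ≤ (k d n : ℝ) := by positivity
    calc (n : ℝ) ^ ((s : ℝ) / ((s : ℝ) + 1)) ≤ 4 * y ^ s := h11
      _ ≤ 4 * (3 * (k d n : ℝ) * 2 ^ s) := by linarith
      _ ≤ 4 * (3 * (k d n : ℝ) * 6 ^ s) := by gcongr
      _ ≤ (k d n : ℝ) * (4 * 6 ^ (s + 1)) := by
        rw [pow_succ]
        have : (0:ℝ) ≤ (k d n : ℝ) * 6 ^ s := by positivity
        nlinarith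

/-- **Theorem.** (1) For every `s ≥ 1`, every `d ≥ 16 s² + 8 s` and every `n ≥ 1`,
`k_d(n) ≥ n^{s/(s+1)} / (4 · 6^{s+1})`.
(2) For every `d ≥ 168` and every `C > 0`, the inequality
`k_d(n) ≥ C d^{2/3} n^{2/3} (log n)^{1/3}` holds for all large `n`.
(3) There is no constant `c > 0` with `k_d(n) < c d^{2/3} n^{2/3} (log n)^{1/3}` for all `d ≥ 3`
and `n ≥ 2`. -/
theorem result :
    (∀ s d n : ℕ, 1 ≤ s → 16 * s ^ 2 + 8 * s ≤ d → 1 ≤ n →
      (n : ℝ) ^ ((s : ℝ) / ((s : ℝ) + 1)) / (4 * 6 ^ (s + 1)) ≤ (k d n : ℝ)) ∧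
    (∀ d : ℕ, 168 ≤ d → ∀ C : ℝ, 0 < C → ∃ N : ℕ, ∀ n : ℕ, N ≤ n →
      C * (d : ℝ) ^ (2 / 3 : ℝ) * (n : ℝ) ^ (2 / 3 : ℝ) * (Real.log n) ^ (1 / 3 : ℝ)
        ≤ (k d n : ℝ)) ∧
    ¬ ∃ c : ℝ, 0 < c ∧ ∀ d n : ℕ, 3 ≤ d → 2 ≤ n →
      (k d n : ℝ) <
        c * (d : ℝ) ^ (2 / 3 : ℝ) * (n : ℝ) ^ (2 / 3 : ℝ) * (Real.log n) ^ (1 / 3 : ℝ) := by
  have part2 : ∀ d : ℕ, 168 ≤ d → ∀ C : ℝ, 0 < C → ∃ N : ℕ, ∀ n : ℕ, N ≤ n →
      C * (d : ℝ) ^ (2 / 3 : ℝ) * (n : ℝ) ^ (2 / 3 : ℝ) * (Real.log n) ^ (1 / 3 : ℝ)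
        ≤ (k d n : ℝ) := by
    intro d hd C hC
    have hd0 : (0:ℝ) < d := by exact_mod_cast (by omega : 0 < d)
    have hA : 0 < C * (d : ℝ) ^ (2 / 3 : ℝ) := by positivity
    set δ : ℝ := 1 / (C * (d : ℝ) ^ (2 / 3 : ℝ) * 5184) with hδ
    have hδ0 : 0 < δ := by positivity
    have hlit := (isLittleO_log_rpow_rpow_atTop (1 / 3 : ℝ) (show (0:ℝ) < 1 / 12 by norm_num)).bound
      hδ0
    have hlit2 := tendsto_natCast_atTop_atTop (R := ℝ) |>.eventually hlit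
    obtain ⟨N, hN⟩ := eventually_atTop.1 hlit2
    refine ⟨max N 1, fun n hn => ?_⟩
    have hn1 : 1 ≤ n := le_trans (le_max_right _ _) hn
    have h1 := hN n (le_trans (le_max_left _ _) hn)
    have hn1' : (1:ℝ) ≤ n := by exact_mod_cast hn1
    rw [Real.norm_of_nonneg (Real.rpow_nonneg (Real.log_nonneg hn1') _),
      Real.norm_of_nonneg (by positivity)] at h1
    have h2 := k_lower (s := 3) (d := d) (by norm_num) (by omega) hn1
    refine le_trans ?_ h2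
    have h3 : (n:ℝ) ^ (((3:ℕ):ℝ) / (((3:ℕ):ℝ) + 1)) =
        (n:ℝ) ^ (2 / 3 : ℝ) * (n:ℝ) ^ (1 / 12 : ℝ) := by
      rw [← Real.rpow_add (by linarith)]
      norm_num
    rw [h3]
    calc C * (d : ℝ) ^ (2 / 3 : ℝ) * (n : ℝ) ^ (2 / 3 : ℝ) * (Real.log n) ^ (1 / 3 : ℝ)
        ≤ C * (d : ℝ) ^ (2 / 3 : ℝ) * (n : ℝ) ^ (2 / 3 : ℝ) * (δ * (n:ℝ) ^ (1 / 12 : ℝ)) := by
          gcongr
      _ = (n:ℝ) ^ (2 / 3 : ℝ) * (n:ℝ) ^ (1 / 12 : ℝ) / (4 * 6 ^ (3 + 1)) := by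
          rw [hδ]
          field_simp
          norm_num
  refine ⟨fun s d n hs hd hn => k_lower hs hd hn, part2, ?_⟩
  rintro ⟨c, hc, h⟩
  obtain ⟨N, hN⟩ := part2 168 le_rfl c hc
  have h1 := hN (max N 2) (le_max_left _ _)
  have h2 := h 168 (max N 2) (by norm_num) (le_max_right _ _)
  exact absurd h2 (not_lt.2 h1)

end Pool.Agent.Results.MP_ae055e_co.LargeDimension
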